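import Pool.Agent.H105R2.Lat.I

/-!
# Uniform lattices of `SO(1,p) × SO(1,q)` have no non-trivial deformation into `SO(2,p+q)`
-/

set_option autoImplicit false

namespace Pool.Agent.Results.MP_a37b3a_al.NoDeformation

open Pool.Agent.H105R2.Lat Topology Filter

/-- For all `p, q ≥ 1` and every uniform lattice `Γ` of `SO(1,p) × SO(1,q)`: every homomorphism
`Γ → SO(2,p+q)` in some neighbourhood of the inclusion, for the topology of pointwise convergence,
is conjugate into `SO(1,p) × SO(1,q)`, and `Γ` has no non-trivial deformation into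
`SO(2,p+q)`. -/
theorem result (p q : ℕ) (hp : 1 ≤ p) (hq : 1 ≤ q) (Γ : Subgroup (HH p q))
    (hΓ : IsUniformLattice Γ) : RigidNearInclusion Γ ∧ ¬ HasNontrivialDeformation Γ := by
  have h := main_nhds hp hq hΓ
  refine ⟨h, ?_⟩
  rintro ⟨ρ, hρ, hρ'⟩
  obtain ⟨U, hU, hU'⟩ := h
  have h1 : Continuous fun (t : unitInterval) => Rep.toMap (ρ t) := continuous_pi hρ.1
  have h3 : ∀ᶠ t in 𝓝 (0 : unitInterval), Rep.toMap (ρ t) ∈ U :=
    (h1.tendsto 0).eventually_mem (by rw [hρ.2]; exact hU)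
  have : (𝓝[>] (0 : unitInterval)).NeBot := nhdsGT_neBot_of_exists_gt ⟨1, zero_lt_one⟩
  have h4 : ∀ᶠ t in 𝓝[>] (0 : unitInterval), Rep.toMap (ρ t) ∈ U :=
    h3.filter_mono nhdsWithin_le_nhds
  obtain ⟨t, h5, h6⟩ := (h4.and self_mem_nhdsWithin).exists
  exact hρ' t h6 (hU' _ h5)

end Pool.Agent.Results.MP_a37b3a_al.NoDeformation
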